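import Pool.Agent.H30.AV.Targets2

set_option autoImplicit false

namespace Pool.Agent.H99.AV.BLKx

open Cardinal

lemma adjoin_top {F Ω ι : Type} [Field F] [Field Ω] [Algebra F Ω] (a : ι → Ω)
    (a' : ι → IntermediateField.adjoin F (Set.range a)) (h : ∀ i, (a' i : Ω) = a i) :
    IntermediateField.adjoin F (Set.range a') = ⊤ := by
  have h1 : (IntermediateField.adjoin F (Set.range a')).map
      (IntermediateField.adjoin F (Set.range a)).val =
      (⊤ : IntermediateField F (IntermediateField.adjoin F (Set.range a))).map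
      (IntermediateField.adjoin F (Set.range a)).val := by
    rw [IntermediateField.adjoin_map]
    have e1 : (IntermediateField.adjoin F (Set.range a)).val '' (Set.range a') = Set.range a := by
      ext x
      constructor
      · rintro ⟨_, ⟨i, rfl⟩, rfl⟩
        exact ⟨i, (h i).symm⟩
      · rintro ⟨i, rfl⟩
        exact ⟨a' i, ⟨i, rfl⟩, h i⟩
    rw [e1]
    ext x
    constructor
    · intro hx
      exact ⟨⟨x, hx⟩, trivial, rfl⟩
    · rintro ⟨y, _, rfl⟩
      exact y.2
  rw [eq_top_iff]
  intro x _
  have hx : (x : Ω) ∈ (⊤ : IntermediateField F (IntermediateField.adjoin F (Set.range a))).map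
      (IntermediateField.adjoin F (Set.range a)).val := ⟨x, trivial, rfl⟩
  rw [← h1] at hx
  obtain ⟨y, hy, hyx⟩ := hx
  have : y = x := Subtype.ext hyx
  rwa [← this]

lemma alg_adjoin {F Ω ι : Type} [Field F] [Field Ω] [Algebra F Ω] (a : ι → Ω)
    (a' : ι → IntermediateField.adjoin F (Set.range a)) (h : ∀ i, (a' i : Ω) = a i) :
    Algebra.IsAlgebraic (Algebra.adjoin F (Set.range a'))
      (IntermediateField.adjoin F (Set.range a)) := by
  rw [← IntermediateField.isAlgebraic_adjoin_iff_top]
  rw [adjoin_top a a' h]
  exact ⟨fun x => isAlgebraic_algebraMap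
    (⟨x, trivial⟩ : (⊤ : IntermediateField F (IntermediateField.adjoin F (Set.range a))))⟩

/-- independent elements stay independent over an extension of transcendence degree `≤ m`, with
at most `m` exceptions -/
lemma exists_indep {k Ω ι : Type} [Field k] [Field Ω] [Algebra k Ω] [Finite ι] (m : ℕ)
    (F : IntermediateField k Ω) (a : ι → Ω) (ha : AlgebraicIndependent k a)
    (hF : Algebra.trdeg k F ≤ (m : Cardinal)) :
    ∃ J : Set ι, AlgebraicIndependent F (fun i : J => a i) ∧ Nat.card ι ≤ m + J.ncard := by
  classical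
  set E := IntermediateField.adjoin F (Set.range a) with hE
  set a' : ι → E := fun i => ⟨a i, IntermediateField.subset_adjoin F _ ⟨i, rfl⟩⟩ with ha'
  have hval : ∀ i, (a' i : Ω) = a i := fun i => rfl
  have := alg_adjoin a a' hval
  obtain ⟨B, hBs, hB⟩ := exists_isTranscendenceBasis_subset (R := F) (A := E) (Set.range a')
  have hinj : Function.Injective a' := by
    intro i j hij
    exact ha.injective (congrArg Subtype.val hij)
  set J : Set ι := a' ⁻¹' B with hJ
  have hBJ : B = a' '' J := by
    rw [hJ, Set.image_preimage_eq_inter_range, Set.inter_eq_left.mpr hBs]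
  refine ⟨J, ?_, ?_⟩
  · have h1 : AlgebraicIndependent F (fun i : J => a' i) := by
      have := hB.1.comp (fun i : J => (⟨a' i, i.2⟩ : B)) (by
        intro i j hij
        exact Subtype.ext (hinj (congrArg Subtype.val hij)))
      exact this
    exact h1.map' (f := E.val) (Subtype.val_injective)
  · have h2 : AlgebraicIndependent k a' := by
      refine AlgebraicIndependent.of_comp ((E.val).restrictScalars k) ?_
      exact ha
    have h3 := h2.cardinalMk_le_trdeg
    rw [← trdeg_add_eq (A := E) k F, ← hB.cardinalMk_eq_trdeg] at h3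
    have h4 : #ι ≤ (m : Cardinal) + #B := h3.trans (by gcongr)
    have h5 : #B = (J.ncard : Cardinal) := by
      have hfin : Finite J := inferInstance
      have hBf : Finite B := by
        rw [hBJ]; infer_instance
      rw [← Nat.cast_card, Nat.card_coe_set_eq, hBJ, Set.ncard_image_of_injective _ hinj]
    rw [h5, ← Nat.cast_card] at h4
    exact_mod_cast h4

end Pool.Agent.H99.AV.BLKx

namespace Pool.Agent.H99.AV

open Pool.Agent.H30.AV BLKx

theorem pf_BLK : T_BLK := by
  classical
  intro k Ω _ _ _ q q0 m ρ τ _ _ a γ ha htr hq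
  have := Fintype.ofFinite ρ
  obtain ⟨J, hJ, hcard⟩ := exists_indep m (IntermediateField.adjoin k (Set.range γ)) a ha htr
  -- the bad blocks
  set good : Finset (Fin q) := Finset.univ.filter (fun i => ∀ r : ρ, (i, r) ∈ J) with hgood
  have hbad : (Finset.univ \ good).card ≤ m := by
    have h1 : Finset.univ \ good ⊆ (Jᶜ).toFinset.image Prod.fst := by
      intro i hi
      rw [Finset.mem_sdiff, hgood, Finset.mem_filter] at hi
      have h4 : ∃ r : ρ, (i, r) ∉ J := by
        by_contra hcon
        push Not at hcon
        exact hi.2 ⟨Finset.mem_univ _, hcon⟩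
      obtain ⟨r, hr⟩ := h4
      rw [Finset.mem_image]
      exact ⟨(i, r), by rw [Set.mem_toFinset]; exact hr, rfl⟩
    have h2 := (Finset.card_le_card h1).trans Finset.card_image_le
    rw [← Set.ncard_eq_toFinset_card'] at h2
    have h3 := Set.ncard_add_ncard_compl J
    omega
  have hg : q0 ≤ good.card := by
    have h1 := Finset.card_sdiff_add_card_inter (Finset.univ : Finset (Fin q)) good
    rw [Finset.univ_inter, Finset.card_univ, Fintype.card_fin] at h1
    omega
  obtain ⟨e⟩ : Nonempty (Fin q0 ↪ good) := by
    rw [Function.Embedding.nonempty_iff_card_le]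
    simpa using hg
  refine ⟨fun i => (e i : Fin q), ?_, ?_⟩
  · intro i j hij
    exact e.injective (Subtype.ext hij)
  · have hmem : ∀ p : Fin q0 × ρ, ((e p.1 : Fin q), p.2) ∈ J := by
      intro p
      have h5 : ∀ x : Fin q, x ∈ good → ∀ r : ρ, (x, r) ∈ J := by
        intro x hx
        rw [hgood, Finset.mem_filter] at hx
        exact hx.2
      exact h5 _ (e p.1).2 p.2
    exact hJ.comp (fun p : Fin q0 × ρ => (⟨((e p.1 : Fin q), p.2), hmem p⟩ : J)) (by
      intro p p' hpp
      have h1 := congrArg Subtype.val hpp
      simp only [Prod.mk.injEq] at h1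
      have h2 : p.1 = p'.1 := e.injective (Subtype.ext h1.1)
      exact Prod.ext h2 h1.2)

end Pool.Agent.H99.AV
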