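import Pool.Agent.H30.AV.Targets
import Pool.Agent.H2.LV.CRD
import Pool.Agent.H95.LV.DK

set_option autoImplicit false

namespace Pool.Agent.H99.AV.NUXx

open Pool.Agent.H27.LV Pool.Agent.H30.AV Filter Topology Nat

lemma cardM (n d : ℕ) : Fintype.card (Mon (n + 1) d) = (n + d).choose n :=
  Pool.Agent.H2.LV.crd Pool.Agent.H95.LV.spl n d

lemma sum_lin (w : ℕ) : 2 * ∑ j ∈ Finset.range w, (j + 1) = w * (w + 1) := by
  induction w with
  | zero => simp
  | succ w ih => rw [Finset.sum_range_succ, mul_add, ih]; ring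

lemma cnt_le (b M w : ℕ) : 2 * cnt (b + 1) M w ≤ (b + M).choose b * (w * (w + 1)) := by
  have h1 : cnt (b + 1) M w ≤ ∑ j ∈ Finset.range w, (j + 1) * (b + M).choose b := by
    unfold cnt
    apply Finset.sum_le_sum
    intro j _
    split_ifs with h
    · rw [cardM]
      apply Nat.mul_le_mul_left
      apply Nat.choose_le_choose
      omega
    · exact Nat.zero_le _
  rw [← Finset.sum_mul] at h1
  calc 2 * cnt (b + 1) M w ≤ 2 * ((∑ j ∈ Finset.range w, (j + 1)) * (b + M).choose b) :=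
        Nat.mul_le_mul_left 2 h1
    _ = (b + M).choose b * (2 * ∑ j ∈ Finset.range w, (j + 1)) := by ring
    _ = _ := by rw [sum_lin]

lemma cnt_zero (M w : ℕ) (h : w ≤ M) : cnt 0 M w = 0 := by
  unfold cnt
  apply Finset.sum_eq_zero
  intro j hj
  rw [Finset.mem_range] at hj
  rw [if_pos (by omega)]
  obtain ⟨x, hx⟩ : ∃ x, M - j = x + 1 := ⟨M - j - 1, by omega⟩
  rw [hx, Pool.Agent.H2.LV.card_empty, mul_zero]

lemma eventually_ineq (r b q c d : ℕ) (hr : 1 ≤ r) (hb : b + 3 ≤ 2 * r)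
    (hq : 32 * r ^ 4 ≤ q + 2 * r) :
    ∀ᶠ t : ℕ in atTop, ((b : ℝ) + 1) * (b + 2) * (q * ((4 * r * t) * (4 * r * t + 1))) *
      (((q : ℝ) - 1) * t + c + b) ^ b < 2 * (((q : ℝ) - 1) * t - d) ^ (b + 2) := by
  have hr2 : 2 ≤ r := by omega
  have hR : (2 : ℝ) ≤ r := by exact_mod_cast hr2
  have hB : (b : ℝ) + 3 ≤ 2 * r := by exact_mod_cast hb
  have hQ : 32 * (r : ℝ) ^ 4 ≤ q + 2 * r := by exact_mod_cast hq
  have hb0 : (0 : ℝ) ≤ b := Nat.cast_nonneg b
  have hr3 : (8 : ℝ) ≤ (r : ℝ) ^ 3 := by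
    have : (2 : ℝ) ^ 3 ≤ (r : ℝ) ^ 3 := pow_le_pow_left₀ (by norm_num) hR 3
    linarith
  have hr4 : (r : ℝ) ^ 4 = r * r ^ 3 := by ring
  have hq3 : (3 : ℝ) ≤ q := by nlinarith
  have hcoef : ((b : ℝ) + 1) * (b + 2) ≤ (2 * r - 2) * (2 * r - 1) := by
    apply mul_le_mul <;> nlinarith
  have hmain : 8 * (q : ℝ) * r ^ 2 * (((b : ℝ) + 1) * (b + 2)) < ((q : ℝ) - 1) ^ 2 := by
    have h1 : 8 * (q : ℝ) * r ^ 2 * (((b : ℝ) + 1) * (b + 2)) ≤
        8 * (q : ℝ) * r ^ 2 * ((2 * r - 2) * (2 * r - 1)) :=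
      mul_le_mul_of_nonneg_left hcoef (by positivity)
    have h2 : 8 * (q : ℝ) * r ^ 2 * ((2 * r - 2) * (2 * r - 1)) =
        q * (32 * r ^ 4 - 48 * r ^ 3 + 16 * r ^ 2) := by ring
    have h3 : (r : ℝ) ^ 3 = r ^ 2 * r := by ring
    have h5 : (4 : ℝ) ≤ (r : ℝ) ^ 2 := by nlinarith
    have h6 : 2 * (r : ℝ) ^ 2 ≤ r ^ 3 := by rw [h3]; nlinarith
    have h7 : (r : ℝ) ≤ r ^ 2 := by nlinarith
    have h4 : 32 * (r : ℝ) ^ 4 - 48 * r ^ 3 + 16 * r ^ 2 ≤ q - 3 := by nlinarith
    have h8 : (q : ℝ) * (32 * r ^ 4 - 48 * r ^ 3 + 16 * r ^ 2) ≤ q * (q - 3) :=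
      mul_le_mul_of_nonneg_left h4 (by linarith)
    nlinarith
  set G : ℝ → ℝ := fun ε => 2 * (((q : ℝ) - 1) - d * ε) ^ (b + 2) -
    ((b : ℝ) + 1) * (b + 2) * (q * ((4 * r) * (4 * r + ε))) *
      (((q : ℝ) - 1) + (c + b) * ε) ^ b with hG
  have hGc : Continuous G := by
    rw [hG]
    fun_prop
  have hG0 : 0 < G 0 := by
    simp only [hG, mul_zero, sub_zero, add_zero]
    have h1 : 2 * ((q : ℝ) - 1) ^ (b + 2) -
        ((b : ℝ) + 1) * (b + 2) * (q * ((4 * r) * (4 * r))) * ((q : ℝ) - 1) ^ b =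
        2 * ((q : ℝ) - 1) ^ b * (((q : ℝ) - 1) ^ 2 -
          8 * (q : ℝ) * r ^ 2 * (((b : ℝ) + 1) * (b + 2))) := by ring
    rw [h1]
    have h2 : 0 < ((q : ℝ) - 1) ^ b := pow_pos (by linarith) b
    have h3 : 0 < ((q : ℝ) - 1) ^ 2 - 8 * (q : ℝ) * r ^ 2 * (((b : ℝ) + 1) * (b + 2)) := by
      linarith
    positivity
  have hlim : Tendsto (fun t : ℕ => (1 : ℝ) / (t : ℝ)) atTop (𝓝 0) :=
    tendsto_const_div_atTop_nhds_zero_nat 1
  have hlim2 : Tendsto (fun t : ℕ => G ((1 : ℝ) / (t : ℝ))) atTop (𝓝 (G 0)) :=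
    (hGc.tendsto 0).comp hlim
  have hev := hlim2.eventually (lt_mem_nhds hG0)
  filter_upwards [hev, eventually_ge_atTop 1] with t ht ht1
  have htp : (0 : ℝ) < t := by exact_mod_cast ht1
  have hmul : 0 < (t : ℝ) ^ (b + 2) * G ((1 : ℝ) / (t : ℝ)) := mul_pos (pow_pos htp _) ht
  have hexp : (t : ℝ) ^ (b + 2) * G ((1 : ℝ) / (t : ℝ)) =
      2 * (((q : ℝ) - 1) * t - d) ^ (b + 2) -
      ((b : ℝ) + 1) * (b + 2) * (q * ((4 * r * t) * (4 * r * t + 1))) *
      (((q : ℝ) - 1) * t + c + b) ^ b := by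
    simp only [hG]
    have e1 : (((q : ℝ) - 1) * t - d) = t * (((q : ℝ) - 1) - d * (1 / t)) := by
      field_simp
    have e2 : (((q : ℝ) - 1) * t + c + b) = t * (((q : ℝ) - 1) + (c + b) * (1 / t)) := by
      field_simp
      ring
    have e3 : (4 * (r : ℝ) * t) * (4 * r * t + 1) =
        t ^ 2 * ((4 * r) * (4 * r + 1 / t)) := by
      field_simp
    rw [e1, e2, e3, mul_pow, mul_pow]
    ring
  rw [hexp] at hmul
  linarith

end Pool.Agent.H99.AV.NUXx

namespace Pool.Agent.H99.AV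

open Pool.Agent.H27.LV Pool.Agent.H30.AV NUXx Filter Topology

theorem pf_NUX : T_NUX := by
  intro r β q c d hr hβ hq
  have hq30 : 30 * r ≤ q := by
    have h1 : r ≤ r ^ 4 := Nat.le_self_pow (by norm_num) r
    omega
  have hq30' : 30 ≤ q := by omega
  have hqr : 4 * r + 2 ≤ q := by omega
  rcases β with _ | b
  · refine ⟨(q - 1) * (q * c + d + 1), 4 * r * (q * c + d + 1), ?_, ?_, ?_⟩
    · have h1 : (4 * r + 1) * (q * c + d + 1) ≤ (q - 1) * (q * c + d + 1) :=
        Nat.mul_le_mul_right _ (by omega)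
      have h2 : (4 * r + 1) * (q * c + d + 1) = 4 * r * (q * c + d + 1) + (q * c + d + 1) := by
        ring
      omega
    · rw [cnt_zero, mul_zero, cardM]
      · exact Nat.choose_pos (by omega)
      · have h1 : (4 * r) * (q * c + d + 1) ≤ (q - 1) * (q * c + d + 1) :=
          Nat.mul_le_mul_right _ (by omega)
        omega
    · obtain ⟨q', rfl⟩ : ∃ q', q = q' + 1 := ⟨q - 1, by omega⟩
      rw [Nat.add_sub_cancel]
      have h3 : (q' + 1) * (4 * r * ((q' + 1) * c + d + 1)) =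
          4 * r * (q' * ((q' + 1) * c + d + 1) + ((q' + 1) * c + d + 1)) := by ring
      rw [h3]
      apply Nat.mul_lt_mul_of_pos_left _ (by omega)
      omega
  · have hev := eventually_ineq r b q c d hr (by omega) hq
    obtain ⟨t, ht, htc⟩ := (hev.and (eventually_ge_atTop (q * c + d + 1))).exists
    refine ⟨(q - 1) * t, 4 * r * t, ?_, ?_, ?_⟩
    · have h1 : (4 * r + 1) * t ≤ (q - 1) * t := Nat.mul_le_mul_right _ (by omega)
      have h2 : (4 * r + 1) * t = 4 * r * t + t := by ring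
      omega
    · have hdN : d ≤ (q - 1) * t := by
        have h1 : 1 * t ≤ (q - 1) * t := Nat.mul_le_mul_right _ (by omega)
        omega
      set N := (q - 1) * t with hN
      set w := 4 * r * t with hw
      have hNr : (N : ℝ) = ((q : ℝ) - 1) * t := by
        rw [hN]
        push_cast [Nat.cast_sub (by omega : 1 ≤ q)]
        ring
      have hnat : (b + 1) * (b + 2) * (q * (w * (w + 1))) * (N + c + b) ^ b <
          2 * (N - d) ^ (b + 2) := by
        have : (((b + 1) * (b + 2) * (q * (w * (w + 1))) * (N + c + b) ^ b : ℕ) : ℝ) <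
            ((2 * (N - d) ^ (b + 2) : ℕ) : ℝ) := by
          push_cast [Nat.cast_sub hdN]
          rw [hNr, hw]
          push_cast
          exact ht
        exact_mod_cast this
      by_contra hcon
      rw [not_lt] at hcon
      have e0 : b + 1 + 2 = (b + 2) + 1 := by ring
      rw [e0, cardM] at hcon
      have h1 : (N - d + 1) ^ (b + 2) ≤ (b + 2).factorial * (b + 2 + (N - d)).choose (b + 2) := by
        rw [← Nat.descFactorial_eq_factorial_mul_choose]
        have := Nat.pow_sub_le_descFactorial (b + 2 + (N - d)) (b + 2)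
        have e : b + 2 + (N - d) + 1 - (b + 2) = N - d + 1 := by omega
        rwa [e] at this
      have h2 : b.factorial * (b + (N + c)).choose b ≤ (N + c + b) ^ b := by
        rw [← Nat.descFactorial_eq_factorial_mul_choose]
        have := Nat.descFactorial_le_pow (b + (N + c)) b
        have e : b + (N + c) = N + c + b := by ring
        rwa [e] at this ⊢
      have h3 := cnt_le b (N + c) w
      have h4 : (b + 2).factorial = (b + 2) * ((b + 1) * b.factorial) := by
        rw [Nat.factorial_succ, Nat.factorial_succ]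
      have h5 : 2 * (N - d) ^ (b + 2) ≤ 2 * (N - d + 1) ^ (b + 2) :=
        Nat.mul_le_mul_left 2 (Nat.pow_le_pow_left (by omega) _)
      have h6 : 2 * (N - d + 1) ^ (b + 2) ≤
          (b + 1) * (b + 2) * (q * (w * (w + 1))) * (N + c + b) ^ b := by
        calc 2 * (N - d + 1) ^ (b + 2)
            ≤ 2 * ((b + 2).factorial * (b + 2 + (N - d)).choose (b + 2)) :=
              Nat.mul_le_mul_left 2 h1
          _ ≤ 2 * ((b + 2).factorial * (q * cnt (b + 1) (N + c) w)) :=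
              Nat.mul_le_mul_left 2 (Nat.mul_le_mul_left _ hcon)
          _ = (b + 1) * (b + 2) * q * b.factorial * (2 * cnt (b + 1) (N + c) w) := by
              rw [h4]; ring
          _ ≤ (b + 1) * (b + 2) * q * b.factorial *
                ((b + (N + c)).choose b * (w * (w + 1))) := Nat.mul_le_mul_left _ h3
          _ = (b + 1) * (b + 2) * (q * (w * (w + 1))) *
                (b.factorial * (b + (N + c)).choose b) := by ring
          _ ≤ (b + 1) * (b + 2) * (q * (w * (w + 1))) * (N + c + b) ^ b :=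
              Nat.mul_le_mul_left _ h2
      omega
    · obtain ⟨q', rfl⟩ : ∃ q', q = q' + 1 := ⟨q - 1, by omega⟩
      rw [Nat.add_sub_cancel]
      have h3 : (q' + 1) * (4 * r * t) = 4 * r * (q' * t + t) := by ring
      rw [h3]
      apply Nat.mul_lt_mul_of_pos_left _ (by omega)
      omega

end Pool.Agent.H99.AV
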